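import Pool.Agent.H49.KT.Targets

/-!
The ordinary branch of the modified machine: start and rounds.
-/

namespace Pool.Agent.H22.KT

open Turing Function Pool.Agent.H49.KT

variable {U : BM}

theorem wf_tr : ∀ q : TM2.Stmt U.tm.Γ U.tm.Λ U.tm.σ, WF (tr (U := U) q) := by
  intro q
  induction q with
  | push k f q ih => exact ⟨trivial, ih⟩
  | peek k f q ih => exact ⟨trivial, ih⟩
  | pop k f q ih => exact ⟨trivial, ih⟩
  | load f q ih => exact ⟨trivial, ih⟩
  | branch p q₁ q₂ ih₁ ih₂ => exact ⟨ih₁, ih₂⟩
  | goto f => exact trivial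
  | halt => exact trivial

theorem wf_disp : ∀ l : List U.tm.Λ, WF (disp (U := U) l) := by
  intro l
  induction l with
  | nil => exact trivial
  | cons x l ih => exact ⟨wf_tr _, ih⟩

theorem wf_stepU : WF (stepU (U := U)) := wf_disp _

theorem wf_ordStart : WF (ordStart (U := U)) := by
  refine ⟨⟨?_, trivial⟩, ⟨?_, trivial⟩, trivial⟩
  · show (_ : KK U) ≠ _
    simp
  · show (_ : KK U) ≠ _
    simp

theorem z₀_apply (x : Nm) : z₀ x = [] := rfl

/-- the start of the ordinary branch -/
theorem sp_ordStart (v : MM U) (x : List Bool) :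
    Spec ordStart (mkS v (E₀ U) (update z₀ .inp x))
      (mkS (v.sa false |>.slu (ini U x).l (ini U x).var) (ini U x).stk z₀) (4 * x.length + 3) := by
  have e1 := sp_mv v (E₀ U) (update z₀ .inp x) (x := .inp) (y := .q) (by simp)
  have h2 : (update (update (update z₀ .inp x) .inp []) .q
      ((update z₀ .inp x .inp).reverse ++ update z₀ .inp x .q)) = update z₀ .q x.reverse := by
    funext k
    cases k <;> simp [update, z₀]
  rw [h2] at e1
  rw [update_self] at e1
  have e2 := sp_lp (v := v.sa false) (u := E₀ U) (z := update z₀ .q x.reverse) (x := .q)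
    (c := pushk) x.reverse (by simp) (fun _ => v)
    (fun i => update (E₀ U) U.tm.k₀ ((x.reverse.take i).reverse.map U.inputAlphabet.symm))
    (fun _ => z₀) (fun _ => 1) ⟨false, rfl⟩
    (by
      funext k
      by_cases h : k = U.tm.k₀
      · subst h; simp [E₀]
      · rw [update_of_ne h])
    (by
      funext k
      cases k <;> simp [update, z₀])
    (fun i hi => by
      refine ⟨x.reverse[i], ?_⟩
      have e := sp_pushk (v.sa x.reverse[i])
        (update (E₀ U) U.tm.k₀ ((x.reverse.take i).reverse.map U.inputAlphabet.symm)) z₀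
      simp only [update_self, update_idem] at e
      rw [take_succ_rev _ _ hi, List.map_cons]
      exact e)
  have e3 := e1.seq (e2.seq (sp_load _ _ _ (fun v => v.slu (some U.tm.main) U.tm.initialState)))
  refine ⟨e3.1.trans ?_, e3.2.trans ?_⟩
  · have : (x.reverse.take x.reverse.length).reverse = x := by
      rw [List.take_length, List.reverse_reverse]
    rw [this]
    rfl
  · simp
    omega

/-- the state after `i` rounds -/
def rst (U : BM) (v : MM U) (x : List Bool) (i : ℕ) : SS U :=
  mkS (v.sa false |>.slu (at' U i x).l (at' U i x).var) (at' U i x).stk (update z₀ .t (un i))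

theorem rst_zero (v : MM U) (x : List Bool) :
    rst U v x 0 = mkS (v.sa false |>.slu (ini U x).l (ini U x).var) (ini U x).stk z₀ := by
  unfold rst
  have : update z₀ .t (un 0) = z₀ := by
    funext k
    cases k <;> simp [update, z₀]
  rw [this]
  rfl

theorem at'_succ (i : ℕ) (x : List Bool) : at' U (i + 1) x = fs U (at' U i x) :=
  Function.iterate_succ_apply' _ _ _

theorem sp_round {B : ℕ} (hB : ∀ (v : MM U) (u : UU U) (z : Nm → List Bool),
    Spec stepU (mkS v u z) (mkS (v.slu (fs U ⟨v.l, v.u, u⟩).l (fs U ⟨v.l, v.u, u⟩).var)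
      (fs U ⟨v.l, v.u, u⟩).stk z) B) (v : MM U) (x : List Bool) (i : ℕ) :
    Spec (.seq (pushc .t true) stepU) (rst U v x i) (rst U v x (i + 1)) (B + 1) := by
  have e1 := sp_pushc (v.sa false |>.slu (at' U i x).l (at' U i x).var) (at' U i x).stk
    (update z₀ .t (un i)) .t true
  have h2 : update (update z₀ .t (un i)) .t (true :: update z₀ .t (un i) .t) =
      update z₀ .t (un (i + 1)) := by
    rw [update_idem, update_self]
    rfl
  rw [h2] at e1
  have e2 := e1.seq (hB _ _ _)
  refine ⟨e2.1.trans ?_, e2.2.trans (by omega)⟩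
  unfold rst
  rw [at'_succ]
  rfl

theorem wf_round : WF (.seq (pushc .t true) stepU : CC U) := ⟨trivial, wf_stepU⟩

end Pool.Agent.H22.KT
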