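import Pool.Agent.H22.KT.Common

/-!
Module DIV: if the simulated machine never halts, the ordinary branch runs forever.
-/

namespace Pool.Agent.H22.KT

open Turing Function Pool.Agent.H49.KT

theorem pf_DIV : T_STEP → T_DIV := by
  intro hS U v x hx N₀
  obtain ⟨B, hB⟩ := hS U
  obtain ⟨n0, -, hn0⟩ := Spec.run wf_ordStart (sp_ordStart v x)
  rw [← rst_zero] at hn0
  choose n _ hn using fun i => Spec.run wf_round (sp_round hB v x i)
  obtain ⟨N, hN, hA⟩ := Alive.wh (p := fun v : MM U => v.l.isSome) (rst U v x) n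
    (fun i => Option.isSome_iff_ne_none.2 (hx i)) hn N₀
  exact ⟨n0 + N, hN.trans (Nat.le_add_left _ _), Alive.seq_right hn0 (Alive.seq_left hA)⟩

end Pool.Agent.H22.KT
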