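import Pool.Agent.H49.KT.Targets

/-!
Module MO: the modified machine on inputs with first bit `false`.
-/

namespace Pool.Agent.H22.KT

open Turing Function Pool.Agent.H49.KT

variable {U : BM}

/-- configurations of the modified machine -/
abbrev MC (U : BM) : Type :=
  TM2.Cfg (GG U) (Option (Lab (top (U := U)))) (MM U × Bool)

/-- transition function of the modified machine -/
noncomputable abbrev mm (U : BM) :
    Option (Lab (top (U := U))) → TM2.Stmt (GG U) (Option (Lab (top (U := U)))) (MM U × Bool) :=
  (machine (top (U := U)) (.inr .inp) (.inr .out) (mem₀ U)).m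

noncomputable def c0 (U : BM) (x : List Bool) : MC U :=
  ⟨some (some (entry top)), (mem₀ U, false), (mkS (mem₀ U) (E₀ U) (update z₀ .inp x)).S⟩

def c1 (U : BM) (y : List Bool) : MC U :=
  ⟨none, (mem₀ U, false), (mkS (mem₀ U) (E₀ U) (update z₀ .out y)).S⟩

theorem initList_mod (x : List Bool) :
    initList (mod U).tm (x.map (mod U).inputAlphabet.invFun) = c0 U x := by
  have hx : x.map (mod U).inputAlphabet.invFun = x := List.map_id x
  rw [hx]
  unfold initList c0
  show (_ : MC U) = _
  congr 1
  funext k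
  by_cases h : k = (.inr .inp : KK U)
  · subst h
    refine (dif_pos rfl).trans ?_
    show x = update z₀ .inp x .inp
    rw [update_self]
  · refine (dif_neg h).trans ?_
    rcases k with k | y
    · rfl
    · show [] = update z₀ .inp x y
      rw [update_of_ne (fun h' => h (by rw [h']))]
      rfl

theorem haltList_mod (y : List Bool) :
    haltList (mod U).tm (y.map (mod U).outputAlphabet.invFun) = c1 U y := by
  have hx : y.map (mod U).outputAlphabet.invFun = y := List.map_id y
  rw [hx]
  unfold haltList c1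
  show (_ : MC U) = _
  congr 1
  funext k
  by_cases h : k = (.inr .out : KK U)
  · subst h
    refine (dif_pos rfl).trans ?_
    show y = update z₀ .out y .out
    rw [update_self]
  · refine (dif_neg h).trans ?_
    rcases k with k | x
    · rfl
    · show [] = update z₀ .out y x
      rw [update_of_ne (fun h' => h (by rw [h']))]
      rfl

theorem outputs_mod {x y : List Bool} {t : ℕ} :
    (mod U).Outputs x y t ↔ ∃ n ≤ t, steps (mm U) n (c0 U x) = some (c1 U y) := by
  constructor
  · rintro ⟨⟨⟨n, e⟩, hn⟩⟩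
    refine ⟨n, hn, ?_⟩
    rw [initList_mod, Option.map_some, haltList_mod] at e
    exact e
  · rintro ⟨n, hn, h⟩
    refine ⟨⟨⟨n, ?_⟩, hn⟩⟩
    rw [initList_mod, Option.map_some, haltList_mod]
    exact h

/-- state at the start of the ordinary branch -/
theorem popa_false (x : List Bool) : ∃ n ≤ 1, Run (popa .inp)
    (mkS (mem₀ U) (E₀ U) (update z₀ .inp (false :: x)))
    (mkS ((mem₀ U).sag false true) (E₀ U) (update z₀ .inp x)) n := by
  have e := sp_popa (mem₀ U) (E₀ U) (update z₀ .inp (false :: x)) .inp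
  rw [update_idem, update_self] at e
  exact Spec.run trivial e

theorem run_top_false {x y : List Bool} {v' : MM U} {N : ℕ}
    (h : Run (.seq ordStart (.seq ordRun ordEnd))
      (mkS ((mem₀ U).sag false true) (E₀ U) (update z₀ .inp x))
      (mkS v' (E₀ U) (update z₀ .out y)) N) :
    ∃ n, N ≤ n ∧ n ≤ N + 4 ∧ steps (mm U) n (c0 U (false :: x)) = some (c1 U y) := by
  obtain ⟨n, hn, hr⟩ := popa_false (U := U) x
  have h2 : Run (top (U := U)) _ _ _ :=
    Run.seq hr (Run.ite_true (c₂ := skip) (p := fun v : MM U => v.g) rfl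
      (Run.ite_false (c₁ := special) (p := fun v : MM U => v.a) rfl h))
  have h3 := machine_run (i := .inr .inp) (o := .inr .out) h2 rfl
  exact ⟨n + (N + 1 + 1) + 1, by omega, by omega, h3⟩

theorem pf_MO : T_ORD → T_DIV → T_MO := by
  intro hO hD U
  obtain ⟨B, hB⟩ := hO U
  have key : ∀ (x : List Bool) (T : ℕ), (at' U T x).l = none →
      (∀ i < T, (at' U i x).l ≠ none) → ∃ n, steps (mm U) n (c0 U (false :: x)) =
        some (c1 U (rawOut U T x)) ∧ (2 * (rawOut U T x).length) ^ 5 * T ≤ n ∧
        n ≤ B * (((rawOut U T x).length + 1) ^ 5 * (T + 1) + x.length) + 4 := by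
    intro x T h0 h1
    obtain ⟨v', N, hR, hl, hu⟩ := hB ((mem₀ U).sag false true) x T h0 h1
    obtain ⟨n, hn1, hn2, hn⟩ := run_top_false hR
    exact ⟨n, hn, hl.trans hn1, by omega⟩
  refine ⟨⟨B + 4, fun x T h0 h1 => ?_⟩, fun x y t h => ?_⟩
  · obtain ⟨n, hn, -, hu⟩ := key x T h0 h1
    refine outputs_mod.2 ⟨n, hu.trans ?_, hn⟩
    have : 1 ≤ ((rawOut U T x).length + 1) ^ 5 * (T + 1) := Nat.succ_le_of_lt (by positivity)
    rw [Nat.add_mul]
    omega
  · obtain ⟨m, hm, hs⟩ := outputs_mod.1 h
    by_cases hx : ∃ i, (at' U i x).l = none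
    · have h1 : ∀ i < Nat.find hx, (at' U i x).l ≠ none := fun i hi => Nat.find_min hx hi
      obtain ⟨n, hn, hl, -⟩ := key x _ (Nat.find_spec hx) h1
      obtain ⟨e1, e2⟩ := steps_det hs rfl hn rfl
      have e3 : y = rawOut U (Nat.find hx) x := by
        have e4 : (c1 U y).stk (.inr .out) = (c1 U (rawOut U (Nat.find hx) x)).stk (.inr .out) := by
          rw [e2]
        have e5 : update z₀ .out y .out = update z₀ .out (rawOut U (Nat.find hx) x) .out := e4
        rwa [update_self, update_self] at e5
      refine ⟨Nat.find hx, Nat.find_spec hx, h1, e3, ?_⟩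
      rw [e3]
      omega
    · exfalso
      have hx' : ∀ i, (at' U i x).l ≠ none := fun i hi => hx ⟨i, hi⟩
      obtain ⟨N, hN, hA⟩ := hD U ((mem₀ U).sag false true) x hx' (t + 1)
      obtain ⟨n, -, hr⟩ := popa_false (U := U) x
      have hA2 : Alive (top (U := U)) _ _ :=
        Alive.seq_right hr (Alive.ite_t (c₂ := skip) (p := fun v : MM U => v.g) rfl
          (Alive.ite_f (c₁ := special) (p := fun v : MM U => v.a) rfl hA))
      have h3 := machine_alive (i := .inr .inp) (o := .inr .out) hA2 rfl
      have h4 := steps_alive hs rfl h3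
      omega

end Pool.Agent.H22.KT
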