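import Pool.Agent.H22.KT.Common

/-!
Module ORD: a complete run of the ordinary branch.
-/

namespace Pool.Agent.H22.KT

open Turing Function Pool.Agent.H49.KT

variable {U : BM}

/-- the rounds -/
theorem run_ordRun {B : ℕ} (hB : ∀ (v : MM U) (u : UU U) (z : Nm → List Bool),
    Spec stepU (mkS v u z) (mkS (v.slu (fs U ⟨v.l, v.u, u⟩).l (fs U ⟨v.l, v.u, u⟩).var)
      (fs U ⟨v.l, v.u, u⟩).stk z) B) (v : MM U) (x : List Bool) (T : ℕ)
    (h0 : (at' U T x).l = none) (h1 : ∀ i < T, (at' U i x).l ≠ none) :
    ∃ N ≤ (B + 2) * T + 1, Run ordRun (rst U v x 0) (rst U v x T) N := by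
  have key : ∀ j, j ≤ T → ∃ N ≤ (B + 2) * j + 1,
      Run ordRun (rst U v x (T - j)) (rst U v x T) N := by
    intro j
    induction j with
    | zero =>
      intro _
      refine ⟨1, by omega, ?_⟩
      refine Run.wh_false ?_
      show ((at' U T x).l).isSome = false
      rw [h0]
      rfl
    | succ j ih =>
      intro hj
      obtain ⟨N, hN, hR⟩ := ih (by omega)
      obtain ⟨n, hn, hr⟩ := Spec.run wf_round (sp_round hB v x (T - (j + 1)))
      have e : T - (j + 1) + 1 = T - j := by omega
      rw [e] at hr
      refine ⟨n + N + 1, ?_, Run.wh_true ?_ hr hR⟩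
      · have : (B + 2) * (j + 1) = (B + 2) * j + B + 2 := by ring
        omega
      · exact Option.isSome_iff_ne_none.2 (h1 _ (by omega))
  obtain ⟨N, hN, hR⟩ := key T le_rfl
  rw [Nat.sub_self] at hR
  exact ⟨N, hN, hR⟩

/-- reading the output stack -/
theorem sp_out (v : MM U) (u : UU U) (z : Nm → List Bool) (k : U.tm.K)
    (g : U.tm.Γ k → Bool) (hq : z .q = []) (hn : z .n = []) :
    Spec (.loop (.inl k) (fun v y => v.sa (g y))
      (fun v => v.sa false) (.seq (pusha .q) (pushc .n true))) (mkS v u z)
      (mkS (v.sa false) (update u k []) (update (update z .q ((u k).map g).reverse) .n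
        (un (u k).length))) (3 * (u k).length + 1) := by
  have key := Spec.loop (K := KK U) (Γ := GG U) (k := .inl k)
    (f := fun (v : MM U) (y : U.tm.Γ k) => v.sa (g y)) (g := fun v => v.sa false)
    (c := .seq (pusha .q) (pushc .n true)) (s := mkS v u z) (u k) rfl
    (fun i => if i = 0 then mkS v (update u k []) z else
      mkS (v.sa (((u k).map g).getD (i - 1) false)) (update u k [])
        (update (update z .q (((u k).map g).take i).reverse) .n (un i))) (fun _ => 2)
    (by
      simp only [if_true]
      exact (upd_inl v v u z k []).symm)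
    (fun i hi => by
      have hi' : i < ((u k).map g).length := by simpa using hi
      have h1 : ((if i = 0 then mkS v (update u k []) z else
          mkS (v.sa (((u k).map g).getD (i - 1) false)) (update u k [])
            (update (update z .q (((u k).map g).take i).reverse) .n (un i)) : SS U).v).sa
              (g (u k)[i]) = v.sa (g (u k)[i]) := by
        split_ifs <;> rfl
      have h2 : (if i = 0 then mkS v (update u k []) z else
          mkS (v.sa (((u k).map g).getD (i - 1) false)) (update u k [])
            (update (update z .q (((u k).map g).take i).reverse) .n (un i)) : SS U).S =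
          (mkS v (update u k []) (update (update z .q (((u k).map g).take i).reverse) .n
            (un i))).S := by
        split_ifs with h
        · subst h
          have : update (update z .q (((u k).map g).take 0).reverse) .n (un 0) = z := by
            funext y
            cases y <;> simp [update, hq, hn]
          rw [this]
        · rfl
      show Spec _ (⟨_, _⟩ : SS U) _ _
      rw [h1, h2, if_neg (Nat.succ_ne_zero i)]
      have e1 := sp_pusha (v.sa (g (u k)[i])) (update u k [])
        (update (update z .q (((u k).map g).take i).reverse) .n (un i)) .q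
      have e2 := e1.seq (sp_pushc _ _ _ .n true)
      refine ⟨e2.1.trans ?_, e2.2⟩
      have h3 : ((u k).map g).getD (i + 1 - 1) false = g (u k)[i] := by
        rw [Nat.add_sub_cancel, List.getD_eq_getElem _ _ hi', List.getElem_map]
      rw [h3]
      congr 1
      funext y
      rw [take_succ_rev _ _ hi', List.getElem_map]
      cases y <;> simp [update, List.replicate_succ])
  refine ⟨key.1.trans ?_, key.2.trans ?_⟩
  · split_ifs with h
    · have h' : u k = [] := List.length_eq_zero_iff.1 h
      refine St.ext' rfl ?_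
      have : update (update z .q ((u k).map g).reverse) .n (un (u k).length) = z := by
        funext y
        cases y <;> simp [update, hq, hn, h']
      rw [this]
      rfl
    · refine St.ext' rfl ?_
      have : (((u k).map g).take (u k).length).reverse = ((u k).map g).reverse := by
        rw [List.take_of_length_le (by simp)]
      rw [this]
      rfl
  · simp
    omega

theorem wf_clearL : ∀ l : List U.tm.K, WF (clearL (U := U) l) := by
  intro l
  induction l with
  | nil => exact trivial
  | cons x l ih => exact ⟨⟨trivial, trivial⟩, ih⟩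

theorem wf_clearU : WF (clearU (U := U)) := ⟨wf_clearL _, trivial⟩

theorem hs_update_le (u : UU U) (k : U.tm.K) : hs U (update u k []) ≤ hs U u := by
  unfold hs
  refine Finset.sum_le_sum fun j _ => ?_
  by_cases h : j = k
  · subst h; simp
  · rw [update_of_ne h]

theorem ht_at' {B : ℕ} (hB : ∀ (c : CF U) (k : U.tm.K),
    ((fs U c).stk k).length ≤ (c.stk k).length + B ∧
      (c.stk k).length ≤ ((fs U c).stk k).length + B) (x : List Bool) (k : U.tm.K) (T : ℕ) :
    ((at' U T x).stk k).length ≤ x.length + B * T := by
  induction T with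
  | zero =>
    show (update (fun _ => []) U.tm.k₀ (x.map U.inputAlphabet.symm) k).length ≤ _
    by_cases h : k = U.tm.k₀
    · subst h; simp
    · rw [update_of_ne h]; simp
  | succ T ih =>
    rw [at'_succ]
    have := (hB (at' U T x) k).1
    have e : B * (T + 1) = B * T + B := by ring
    omega

theorem hs_at' {B : ℕ} (hB : ∀ (c : CF U) (k : U.tm.K),
    ((fs U c).stk k).length ≤ (c.stk k).length + B ∧
      (c.stk k).length ≤ ((fs U c).stk k).length + B) :
    ∃ C : ℕ, ∀ (x : List Bool) (T : ℕ), hs U (at' U T x).stk ≤ C * (x.length + T) := by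
  refine ⟨@Fintype.card U.tm.K U.tm.kFin * (B + 1), fun x T => ?_⟩
  have h := @Finset.sum_le_card_nsmul U.tm.K ℕ _ _ _ (@Finset.univ U.tm.K U.tm.kFin)
    (fun k => ((at' U T x).stk k).length) ((B + 1) * (x.length + T))
    (fun k _ => (ht_at' hB x k T).trans (by nlinarith))
  refine h.trans (le_of_eq ?_)
  rw [smul_eq_mul]
  show @Fintype.card U.tm.K U.tm.kFin * _ = _
  ring

theorem pf_ORD : T_OT → T_STEP → T_HT → T_CLU → T_ORD := by
  intro hOT hS hHT hCL U
  obtain ⟨B1, hB1⟩ := hS U
  obtain ⟨B2, hB2⟩ := hHT U
  obtain ⟨B3, hB3⟩ := hCL U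
  obtain ⟨C, hC⟩ := hs_at' hB2
  refine ⟨1000 + (B1 + 2) + 2 * C + B3 + 20, fun v x T h0 h1 => ?_⟩
  set y := rawOut U T x with hy
  obtain ⟨N1, hN1, hR1⟩ := Spec.run wf_ordStart (sp_ordStart v x)
  rw [← rst_zero] at hR1
  obtain ⟨N2, hN2, hR2⟩ := run_ordRun hB1 v x T h0 h1
  have hw : ((at' U T x).stk U.tm.k₁).length = y.length := by
    rw [hy]; simp [rawOut]
  have e3 := sp_out (v.sa false |>.slu (at' U T x).l (at' U T x).var) (at' U T x).stk
    (update z₀ .t (un T)) U.tm.k₁ U.outputAlphabet rfl rfl
  have wf3 : WF (.loop (.inl U.tm.k₁) (fun v y => v.sa (U.outputAlphabet y))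
      (fun v => v.sa false) (.seq (pusha .q) (pushc .n true)) : CC U) := by
    refine ⟨⟨?_, ?_⟩, trivial, trivial⟩
    · show (_ : KK U) ≠ _
      simp
    · show (_ : KK U) ≠ _
      simp
  obtain ⟨N3, hN3, hR3⟩ := Spec.run wf3 e3
  obtain ⟨N4, hN4, hR4⟩ := Spec.run wf_clearU (hB3 ((v.sa false |>.slu (at' U T x).l
    (at' U T x).var).sa false) (update (at' U T x).stk U.tm.k₁ [])
    (update (update (update z₀ .t (un T)) .q
      (((at' U T x).stk U.tm.k₁).map U.outputAlphabet).reverse) .n
      (un ((at' U T x).stk U.tm.k₁).length)))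
  obtain ⟨v', N5, hR5, hlow, hup⟩ := hOT U (((v.sa false |>.slu (at' U T x).l
    (at' U T x).var).sa false).slu none U.tm.initialState) (E₀ U) y T
  have hz : update (update (update z₀ .t (un T)) .q
      (((at' U T x).stk U.tm.k₁).map U.outputAlphabet).reverse) .n
      (un ((at' U T x).stk U.tm.k₁).length) =
      update (update (update z₀ .q y.reverse) .n (un y.length)) .t (un T) := by
    rw [hw]
    funext k
    cases k <;> simp [update, hy, rawOut]
  rw [hz] at hR4 hR3
  refine ⟨v', N1 + (N2 + (N3 + (N4 + N5))), ?_, ?_, ?_⟩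
  · refine Run.seq hR1 (Run.seq hR2 (Run.seq hR3 (Run.seq hR4 hR5)))
  · omega
  · have hh := (hs_update_le (at' U T x).stk U.tm.k₁).trans (hC x T)
    have h5 : y.length + 1 ≤ (y.length + 1) ^ 5 := Nat.le_self_pow (by norm_num) _
    have h6 : (y.length + 1) ≤ (y.length + 1) ^ 5 * (T + 1) :=
      h5.trans (Nat.le_mul_of_pos_right _ (by omega))
    have h7 : T + 1 ≤ (y.length + 1) ^ 5 * (T + 1) :=
      Nat.le_mul_of_pos_left _ (by positivity)
    rw [hw] at hN3
    set W := (y.length + 1) ^ 5 * (T + 1) with hW
    have a1 : 4 * x.length + 3 ≤ 4 * x.length + 3 * W := by omega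
    have a2 : (B1 + 2) * T + 1 ≤ (B1 + 2) * W + W := by
      have : (B1 + 2) * T ≤ (B1 + 2) * W := Nat.mul_le_mul_left _ (by omega)
      omega
    have a3 : 3 * y.length + 1 ≤ 3 * W := by omega
    have a4 : C * (x.length + T) ≤ C * x.length + C * W := by
      rw [Nat.mul_add]
      have : C * T ≤ C * W := Nat.mul_le_mul_left _ (by omega)
      omega
    have a5 : B3 ≤ B3 * W := Nat.le_mul_of_pos_right _ (by omega)
    have a6 : 2 * hs U (update (at' U T x).stk U.tm.k₁ []) + B3 ≤
        2 * (C * x.length) + 2 * (C * W) + B3 * W := by omega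
    have a7 : (1000 + (B1 + 2) + 2 * C + B3 + 20) * (W + x.length) =
        1000 * W + (B1 + 2) * W + 2 * (C * W) + B3 * W + 20 * W +
        (1000 * x.length + (B1 + 2) * x.length + 2 * (C * x.length) + B3 * x.length +
          20 * x.length) := by ring
    rw [a7]
    have a8 := Nat.zero_le ((B1 + 2) * x.length)
    have a9 := Nat.zero_le (B3 * x.length)
    omega

end Pool.Agent.H22.KT
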